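import Mathlib
import Pool.Agent.H19.MaxDet

set_option autoImplicit false
set_option maxRecDepth 100000

namespace Pool.Agent.Results.MP_e7c87c_co.Negative
open Matrix

/-- the feasible set: positive definite, unit diagonal, entry `x` on every edge -/
def Feas {V : Type} (G : SimpleGraph V) (x : ℝ) (M : Matrix V V ℝ) : Prop :=
  M.PosDef ∧ (∀ v, M v v = 1) ∧ ∀ u v, G.Adj u v → M u v = x

/-- a feasible matrix of largest determinant -/
def IsMax {V : Type} [Fintype V] [DecidableEq V] (G : SimpleGraph V) (x : ℝ)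
    (M : Matrix V V ℝ) : Prop :=
  Feas G x M ∧ ∀ N, Feas G x N → N.det ≤ M.det

abbrev W := Fin 592
abbrev V := Fin 4 ⊕ W

def ty (w : W) : Fin 3 := if w.1 < 185 then 0 else if w.1 < 407 then 1 else 2

def pr (k : Fin 3) (a : Fin 4) : Bool :=
  (k == 0 && (a == 0 || a == 2)) || (k == 1 && (a == 1 || a == 2)) ||
    (k == 2 && (a == 1 || a == 3))

def adj : V → V → Bool
  | .inl a, .inl b => a.1 / 2 == b.1 / 2 && a != b
  | .inl a, .inr w => pr (ty w) a
  | .inr w, .inl a => pr (ty w) a
  | .inr _, .inr _ => false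

def G : SimpleGraph V where
  Adj u v := adj u v = true
  symm := ⟨by
    rintro (a | w) (b | z) h
    · revert a b; decide
    · exact h
    · exact h
    · exact h⟩
  loopless := ⟨by rintro (a | w) h <;> simp [adj] at h⟩

noncomputable def B : Matrix (Fin 4) (Fin 4) ℝ :=
  !![1, 1/10, 1/2, -1/25; 1/10, 1, 1/2, 1/2; 1/2, 1/2, 1, 1/10; -1/25, 1/2, 1/10, 1]
noncomputable def Bi : Matrix (Fin 4) (Fin 4) ℝ :=
  !![25/18, 5/18, -5/6, 0; 5/18, 17/9, -1, -5/6; -5/6, -1, 17/9, 5/18; 0, -5/6, 5/18, 25/18]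
noncomputable def L : Matrix (Fin 4) (Fin 4) ℝ :=
  !![1, 0, 0, 0; 1/10, 1, 0, 0; 1/2, 5/11, 1, 0; -1/25, 28/55, -1/5, 1]
noncomputable def d : Fin 4 → ℝ := ![1, 99/100, 6/11, 18/25]
noncomputable def C : Matrix W (Fin 4) ℝ := fun w a => if pr (ty w) a then 1/15 else 0

noncomputable def M : Matrix V V ℝ :=
  fromBlocks B (B * Cᵀ) (C * B) (C * B * Cᵀ + (74/75 : ℝ) • 1)
noncomputable def K : Matrix V V ℝ :=
  fromBlocks (Bi + (75/74 : ℝ) • (Cᵀ * C)) (-((75/74 : ℝ) • Cᵀ)) (-((75/74 : ℝ) • C))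
    ((75/74 : ℝ) • 1)

lemma BiB : Bi * B = 1 := by
  ext i j
  fin_cases i <;> fin_cases j <;> simp [Bi, B, Matrix.mul_apply, Fin.sum_univ_four] <;> norm_num

lemma LdL : L * diagonal d * Lᵀ = B := by
  ext i j
  rw [Matrix.mul_apply]
  simp only [Matrix.mul_diagonal, Fin.sum_univ_four, transpose_apply]
  fin_cases i <;> fin_cases j <;> simp [L, B, d] <;> norm_num

lemma KM : K * M = 1 := by
  rw [K, M, fromBlocks_multiply, ← fromBlocks_one]
  congr 1
  · simp [Matrix.add_mul, BiB, Matrix.mul_assoc]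
  · simp only [Matrix.add_mul, Matrix.neg_mul, Matrix.smul_mul, Matrix.mul_add, Matrix.mul_smul,
      Matrix.mul_one, ← Matrix.mul_assoc, BiB, Matrix.one_mul, smul_add, smul_smul, smul_neg]
    norm_num
  · simp [Matrix.mul_assoc]
  · simp only [Matrix.add_mul, Matrix.neg_mul, Matrix.smul_mul, Matrix.mul_add, Matrix.mul_smul,
      Matrix.mul_one, ← Matrix.mul_assoc, BiB, Matrix.one_mul, smul_add, smul_smul, smul_neg]
    norm_num

lemma M_pd : M.PosDef := by
  have h : M = fromBlocks L 0 (C * L) 1 * diagonal (Sum.elim d fun _ => 74/75) *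
      (fromBlocks L 0 (C * L) 1)ᴴ := by
    rw [← fromBlocks_diagonal, conjTranspose_eq_transpose_of_trivial, fromBlocks_transpose,
      fromBlocks_multiply, fromBlocks_multiply, M, ← LdL, smul_one_eq_diagonal]
    simp [Matrix.mul_assoc]
  have p : M.PosSemidef := by
    rw [h]
    refine PosSemidef.mul_mul_conjTranspose_same (PosSemidef.diagonal ?_) _
    rintro (a | w)
    · fin_cases a <;> simp [d] <;> norm_num
    · simp; norm_num
  exact p.posDef_iff_isUnit.2 (IsUnit.of_mul_eq_one_right _ KM)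

lemma feas : Feas G (1/10) M := by
  refine ⟨M_pd, ?_, ?_⟩
  · rintro (a | w)
    · fin_cases a <;> simp [M, B]
    · simp only [M, fromBlocks_apply₂₂, Matrix.add_apply, Matrix.mul_apply, Fin.sum_univ_four, C,
        transpose_apply, Matrix.smul_apply, one_apply_eq]
      generalize ty w = k
      fin_cases k <;> simp [pr, B] <;> norm_num
  · rintro (a | w) (b | z) h
    · fin_cases a <;> fin_cases b <;> simp [G, adj] at h <;> simp [M, B]
    · simp only [M, fromBlocks_apply₁₂, Matrix.mul_apply, Fin.sum_univ_four, C, transpose_apply]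
      have h' : pr (ty z) a = true := h
      generalize ty z = k at h'
      fin_cases k <;> fin_cases a <;> simp [pr] at h' <;> simp [pr, B] <;> norm_num
    · simp only [M, fromBlocks_apply₂₁, Matrix.mul_apply, Fin.sum_univ_four, C]
      have h' : pr (ty w) b = true := h
      generalize ty w = k at h'
      fin_cases k <;> fin_cases b <;> simp [pr] at h' <;> simp [pr, B] <;> norm_num
    · simp [G, adj] at h

def cnt (a b : Fin 4) : ℕ := (Finset.univ.filter fun w : W => pr (ty w) a && pr (ty w) b).card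

lemma CC (a b : Fin 4) : (Cᵀ * C) a b = (cnt a b : ℝ) / 225 := by
  rw [Matrix.mul_apply, cnt, Finset.card_filter, Nat.cast_sum, Finset.sum_div]
  refine Finset.sum_congr rfl fun w _ => ?_
  simp only [transpose_apply, C]
  cases pr (ty w) a <;> cases pr (ty w) b <;> norm_num

lemma cnts : cnt 0 2 = 185 ∧ cnt 2 0 = 185 ∧ cnt 1 2 = 222 ∧ cnt 2 1 = 222 ∧ cnt 1 3 = 185 ∧
    cnt 3 1 = 185 ∧ cnt 0 3 = 0 ∧ cnt 3 0 = 0 := by decide +kernel

lemma K_zero (u v : V) (h1 : u ≠ v) (h2 : ¬ G.Adj u v) : K v u = 0 := by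
  obtain ⟨c1, c2, c3, c4, c5, c6, c7, c8⟩ := cnts
  rcases u with a | w <;> rcases v with b | z
  · simp only [K, fromBlocks_apply₁₁, Matrix.add_apply, Matrix.smul_apply, CC]
    fin_cases a <;> fin_cases b <;> simp [G, adj] at h1 h2 <;> simp [Bi, *] <;> norm_num
  · have : pr (ty z) a = false := by simpa [G, adj] using h2
    simp [K, C, this]
  · have : pr (ty w) b = false := by simpa [G, adj] using h2
    simp [K, C, this]
  · have : z ≠ w := fun e => h1 (by rw [e])
    simp [K, this]

lemma tr (N : Matrix V V ℝ) (hN : Feas G (1/10) N) : (N * K).trace = Fintype.card V := by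
  have : (N * K).trace = (M * K).trace := by
    simp only [trace, diag_apply, Matrix.mul_apply]
    refine Finset.sum_congr rfl fun u _ => Finset.sum_congr rfl fun v _ => ?_
    by_cases h1 : u = v
    · subst h1; rw [hN.2.1, feas.2.1]
    · by_cases h2 : G.Adj u v
      · rw [hN.2.2 u v h2, feas.2.2 u v h2]
      · rw [K_zero u v h1 h2, mul_zero, mul_zero]
  rw [this, mul_eq_one_comm.1 KM, trace_one]

lemma conn : G.Connected := by
  have a : ∀ a : Fin 4, G.Reachable (.inl 1) (.inl a) := by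
    have r2 : G.Reachable (.inl 1) (.inl 2) :=
      (SimpleGraph.Adj.reachable (show G.Adj (.inl 1) (.inr 200) from rfl)).trans
        (SimpleGraph.Adj.reachable (show G.Adj (.inr 200) (.inl 2) from rfl))
    intro a
    fin_cases a
    · exact SimpleGraph.Adj.reachable (show G.Adj (.inl 1) (.inl 0) from rfl)
    · exact SimpleGraph.Reachable.refl _
    · exact r2
    · exact r2.trans (SimpleGraph.Adj.reachable (show G.Adj (.inl 2) (.inl 3) from rfl))
  have b : ∀ v, G.Reachable (.inl 1) v := by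
    rintro (x | w)
    · exact a x
    · have : ∀ k : Fin 3, ∃ x, pr k x = true := by decide
      obtain ⟨x, hx⟩ := this (ty w)
      exact (a x).trans (SimpleGraph.Adj.reachable (show G.Adj (.inl x) (.inr w) from hx))
  exact ⟨fun u v => (b u).symm.trans (b v)⟩

theorem result : ∃ (U : Type) (_ : Fintype U) (_ : DecidableEq U) (H : SimpleGraph U) (x : ℝ),
    H.Connected ∧ 0 < x ∧ x < 1 ∧ (∃ A, IsMax H x A) ∧
      ∃ u v, ∀ A, IsMax H x A → A u v < 0 := by
  refine ⟨V, inferInstance, inferInstance, G, 1/10, conn, by norm_num, by norm_num,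
    ⟨M, feas, fun N hN => (Pool.Agent.H19.MaxDet.key M K N M_pd KM hN.1 (tr N hN)).1⟩,
    .inl 0, .inl 3, fun A hA => ?_⟩
  rw [(Pool.Agent.H19.MaxDet.key M K A M_pd KM hA.1.1 (tr A hA.1)).2 (hA.2 M feas)]
  simp [M, B]
  norm_num

end Pool.Agent.Results.MP_e7c87c_co.Negative
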